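import Pool.Agent.Helper47.EP.Goals

/-!
# Packet EP-FLD (project EP, MP_5b9a11_al): the symplectic space `K`
-/

set_option autoImplicit false
set_option linter.unusedSectionVars false

namespace Pool.Agent.Helper2.EP.FLD

open Pool.Agent.Helper47.EP

section gen

variable {l : ℕ} [Fact l.Prime] {K : Type} [Field K] [Algebra (ZMod l) K] [Fintype K] [CharP K l]

lemma tr_eq (hK : Fintype.card K = l ^ 2) (c : K) :
    algebraMap (ZMod l) K (Algebra.trace (ZMod l) K c) = c + c ^ l := by
  have h1 : Module.finrank (ZMod l) K = 2 := by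
    have h2 := FiniteField.pow_finrank_eq_natCard l K
    rw [Nat.card_eq_fintype_card, hK] at h2
    exact Nat.pow_right_injective (Fact.out : l.Prime).two_le h2
  rw [FiniteField.algebraMap_trace_eq_sum_pow, h1, Finset.sum_range_succ, Finset.sum_range_one,
    pow_zero, pow_one, pow_one, Nat.card_zmod]

/-- the form. -/
noncomputable def wf (l : ℕ) [Fact l.Prime] {K : Type} [Field K] [Algebra (ZMod l) K]
    [CharP K l] (δ : K) : K →+ K →+ ZMod l :=
  AddMonoidHom.mk' (fun x => AddMonoidHom.mk' (fun y =>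
    Algebra.trace (ZMod l) K (δ * x * y ^ l)) (by
      intro a b
      rw [add_pow_char, mul_add, map_add])) (by
    intro a b
    ext y
    show Algebra.trace (ZMod l) K (δ * (a + b) * y ^ l) =
      Algebra.trace (ZMod l) K (δ * a * y ^ l) + Algebra.trace (ZMod l) K (δ * b * y ^ l)
    rw [← map_add]
    congr 1
    ring)

lemma pow_ll (hK : Fintype.card K = l ^ 2) (x : K) : (x ^ l) ^ l = x := by
  rw [← pow_mul, ← sq, ← hK]
  exact FiniteField.pow_card x

lemma wf_eq (hK : Fintype.card K = l ^ 2) {δ : K} (hδ : δ ^ l = -δ) (x y : K) :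
    algebraMap (ZMod l) K (wf l δ x y) = δ * (x * y ^ l - x ^ l * y) := by
  show algebraMap (ZMod l) K (Algebra.trace (ZMod l) K (δ * x * y ^ l)) = _
  rw [tr_eq hK, mul_pow, mul_pow, hδ, pow_ll hK]
  ring

lemma am_inj {a b : ZMod l} (h : algebraMap (ZMod l) K a = algebraMap (ZMod l) K b) : a = b :=
  (algebraMap (ZMod l) K).injective h

/-- the identity behind `gauss`. -/
lemma key (hK : Fintype.card K = l ^ 2) {δ u v : K} (hδ : δ ^ l = -δ) (hu : u * u ^ l = 1)
    (hv : v * v ^ l = 1) (x y : K) (hy : v * y - y = -(u * x - x)) :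
    (v - 1) * (v ^ l - 1) * algebraMap (ZMod l) K (wf l δ (u * x) x + wf l δ (v * y) y) =
      -(2 * δ * (u - 1) * (v - 1) * u ^ l * v ^ l * (u * v - 1)) * x ^ (l + 1) := by
  have hy2 : v ^ l * y ^ l - y ^ l = -(u ^ l * x ^ l - x ^ l) := by
    have h1 := congrArg (frobenius K l) hy
    simpa only [map_sub, map_mul, map_neg, frobenius_def] using h1
  rw [map_add, wf_eq hK hδ, wf_eq hK hδ, mul_pow, mul_pow, pow_succ]
  set X := x ^ l
  set Y := y ^ l
  set u' := u ^ l
  set v' := v ^ l
  have h1 : (v - 1) * y = -((u - 1) * x) := by linear_combination hy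
  have h2 : (v' - 1) * Y = -((u' - 1) * X) := by linear_combination hy2
  have h3 : (v - 1) * (v' - 1) * (y * Y) = (u - 1) * (u' - 1) * (x * X) := by
    calc (v - 1) * (v' - 1) * (y * Y) = ((v - 1) * y) * ((v' - 1) * Y) := by ring
      _ = (u - 1) * (u' - 1) * (x * X) := by rw [h1, h2]; ring
  calc (v - 1) * (v' - 1) * (δ * (u * x * X - u' * X * x) + δ * (v * y * Y - v' * Y * y))
      = δ * (u - u') * ((v - 1) * (v' - 1)) * (x * X) +
          δ * (v - v') * ((v - 1) * (v' - 1) * (y * Y)) := by ring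
    _ = δ * (x * X) * ((u - u') * ((v - 1) * (v' - 1)) +
          (v - v') * ((u - 1) * (u' - 1))) := by rw [h3]; ring
    _ = -(2 * δ * (u - 1) * (v - 1) * u' * v' * (u * v - 1)) * (X * x) := by
        have h4 : (u - u') * ((v - 1) * (v' - 1)) + (v - v') * ((u - 1) * (u' - 1)) =
            -(2 * (u - 1) * (v - 1) * u' * v' * (u * v - 1)) := by
          have hu0 : u ≠ 0 := by rintro rfl; simp at hu
          have hv0 : v ≠ 0 := by rintro rfl; simp at hv
          have hu2 : u' = u⁻¹ := eq_inv_of_mul_eq_one_right hu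
          have hv2 : v' = v⁻¹ := eq_inv_of_mul_eq_one_right hv
          rw [hu2, hv2]
          field_simp
          ring
        rw [h4]
        ring

lemma count (hK : Fintype.card K = l ^ 2) (W : K → ZMod l) (c : K) (hc : c ≠ 0)
    (hW : ∀ x, algebraMap (ZMod l) K (W x) = c * x ^ (l + 1)) (z : ZMod l) :
    (Finset.univ.filter fun x => W x = z).card = if z = 0 then 1 else l + 1 := by
  classical
  have hl := (Fact.out : l.Prime)
  have h0 : (Finset.univ.filter fun x => W x = 0).card = 1 := by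
    rw [Finset.card_eq_one]
    refine ⟨0, ?_⟩
    ext x
    rw [Finset.mem_filter, Finset.mem_singleton]
    constructor
    · rintro ⟨_, h⟩
      have h1 := hW x
      rw [h, map_zero] at h1
      exact pow_eq_zero_iff (Nat.succ_ne_zero l) |>.1
        ((mul_eq_zero.1 h1.symm).resolve_left hc)
    · rintro rfl
      refine ⟨Finset.mem_univ _, am_inj (K := K) ?_⟩
      rw [hW, zero_pow (Nat.succ_ne_zero l), mul_zero, map_zero]
  have hle : ∀ z ∈ Finset.univ.erase (0 : ZMod l),
      (Finset.univ.filter fun x => W x = z).card ≤ l + 1 := by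
    intro z _
    calc (Finset.univ.filter fun x => W x = z).card
        ≤ (Polynomial.nthRoots (l + 1) (algebraMap (ZMod l) K z / c)).toFinset.card := by
          refine Finset.card_le_card fun x hx => ?_
          rw [Finset.mem_filter] at hx
          rw [Multiset.mem_toFinset, Polynomial.mem_nthRoots (Nat.succ_pos l), ← hx.2, hW]
          field_simp
      _ ≤ (Polynomial.nthRoots (l + 1) (algebraMap (ZMod l) K z / c)).card :=
          Multiset.toFinset_card_le _
      _ ≤ l + 1 := Polynomial.card_nthRoots _ _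
  have hsum : ∑ z ∈ Finset.univ.erase (0 : ZMod l), (Finset.univ.filter fun x => W x = z).card =
      ∑ _z ∈ Finset.univ.erase (0 : ZMod l), (l + 1) := by
    have h1 := Finset.card_eq_sum_card_fiberwise (f := W) (s := Finset.univ)
      (t := Finset.univ) (fun x _ => Finset.mem_coe.2 (Finset.mem_univ _))
    rw [Finset.card_univ, hK, ← Finset.add_sum_erase _ _ (Finset.mem_univ (0 : ZMod l)), h0] at h1
    rw [Finset.sum_const, Finset.card_erase_of_mem (Finset.mem_univ _), Finset.card_univ,
      ZMod.card, smul_eq_mul]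
    obtain ⟨n, rfl⟩ : ∃ n, l = n + 1 := ⟨l - 1, by have := hl.two_le; omega⟩
    rw [Nat.add_sub_cancel]
    have h2 : (n + 1) ^ 2 = 1 + n * (n + 1 + 1) := by ring
    omega
  have hall := (Finset.sum_eq_sum_iff_of_le hle).1 hsum
  split_ifs with hz
  · rw [hz]
    exact h0
  · exact hall z (Finset.mem_erase.2 ⟨hz, Finset.mem_univ _⟩)

end gen

theorem t : Pool.Agent.Helper47.EP.S_FLD := by
  intro p hp hp2
  have : Fact p.Prime := ⟨hp⟩
  have hu : IsUnit (-1 : ZMod p) := isUnit_one.neg
  obtain ⟨l, hl2, hl, hlp⟩ := Nat.forall_exists_prime_gt_and_eq_mod hu 2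
  have : Fact l.Prime := ⟨hl⟩
  have hdvd : p ∣ l + 1 := by
    rw [← ZMod.natCast_eq_zero_iff]
    push_cast
    rw [hlp]
    ring
  have hne : l ≠ p := by
    rintro rfl
    have h1 : l ∣ 1 := (Nat.dvd_add_right (dvd_refl l)).1 hdvd
    have h2 := Nat.le_of_dvd one_pos h1
    omega
  let K := GaloisField l 2
  let _ : Fintype K := Fintype.ofFinite K
  have hK : Fintype.card K = l ^ 2 := by
    rw [← Nat.card_eq_fintype_card]
    exact GaloisField.card l 2 two_ne_zero
  obtain ⟨ζ, hζ⟩ : ∃ ζ : Kˣ, orderOf ζ = p := by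
    apply exists_prime_orderOf_dvd_card'
    rw [Nat.card_units, Nat.card_eq_fintype_card, hK]
    have h1 : l ^ 2 - 1 = (l + 1) * (l - 1) := by
      have := Nat.sq_sub_sq l 1
      simpa using this
    rw [h1]
    exact hdvd.mul_right _
  have hζl : ζ ^ (l + 1) = 1 := orderOf_dvd_iff_pow_eq_one.1 (hζ ▸ hdvd)
  have hζ2 : (ζ : K) ^ l ≠ ζ := by
    intro h1
    have h2 : ζ ^ 2 = 1 := by
      have h3 : ζ ^ l = ζ := Units.ext (by rw [Units.val_pow_eq_pow_val, h1])
      rw [← hζl, pow_succ ζ l, h3, sq]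
    have h3 := orderOf_dvd_of_pow_eq_one h2
    rw [hζ] at h3
    exact hp2 ((Nat.prime_dvd_prime_iff_eq hp Nat.prime_two).1 h3)
  set δ : K := ζ - ζ ^ l with hδdef
  have hδ0 : δ ≠ 0 := fun h => hζ2 (sub_eq_zero.1 h).symm
  have hδ : δ ^ l = -δ := by
    rw [hδdef, sub_pow_char, pow_ll hK]
    ring
  let z : ZMod p → K := fun j => ((ζ ^ j.val : Kˣ) : K)
  have hz0 : z 0 = 1 := by
    show ((ζ ^ (0 : ZMod p).val : Kˣ) : K) = 1
    rw [ZMod.val_zero, pow_zero, Units.val_one]
  have hzadd : ∀ j k, z (j + k) = z j * z k := by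
    intro j k
    have h1 := pow_mod_orderOf ζ (j.val + k.val)
    rw [hζ] at h1
    show ((ζ ^ (j + k).val : Kˣ) : K) = ((ζ ^ j.val : Kˣ) : K) * ((ζ ^ k.val : Kˣ) : K)
    rw [ZMod.val_add, h1, pow_add, Units.val_mul]
  have hz1 : ∀ j, j ≠ 0 → z j ≠ 1 := by
    intro j hj h1
    have h2 : ζ ^ j.val = 1 := Units.ext h1
    have h3 := orderOf_dvd_of_pow_eq_one h2
    rw [hζ] at h3
    have h4 : j.val = 0 := Nat.eq_zero_of_dvd_of_lt h3 (ZMod.val_lt j)
    exact hj ((ZMod.val_eq_zero j).1 h4)
  have hzl : ∀ j, z j * z j ^ l = 1 := by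
    intro j
    rw [← pow_succ']
    show ((ζ ^ j.val : Kˣ) : K) ^ (l + 1) = 1
    rw [← Units.val_pow_eq_pow_val, ← pow_mul, mul_comm, pow_mul, hζl, one_pow, Units.val_one]
  have h20 : (2 : K) ≠ 0 := by
    have h1 : ((2 : ℕ) : K) ≠ 0 := by
      rw [Ne, CharP.cast_eq_zero_iff K l]
      intro h2
      have := Nat.le_of_dvd two_pos h2
      omega
    exact_mod_cast h1
  refine ⟨{ l := l, K := K, grp := inferInstance, fin := inferInstance,
            dec := Classical.decEq K, w := wf l δ, t := fun j => AddMonoidHom.mulLeft (z j),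
            prime := hl, ne := hne, ne2 := by omega, card := hK, alt := ?_, nondeg := ?_,
            t_zero := ?_, t_add := ?_, inv := ?_, inj := ?_, gauss := ?_ }⟩
  · intro x
    apply am_inj (K := K)
    rw [wf_eq hK hδ, map_zero]
    ring
  · intro x hx
    refine ⟨x * ζ, fun h => ?_⟩
    have h1 := congrArg (algebraMap (ZMod l) K) h
    rw [wf_eq hK hδ, map_zero, mul_pow] at h1
    have h2 : δ * (x * (x ^ l * (ζ : K) ^ l) - x ^ l * (x * ζ)) = -(δ * δ * (x * x ^ l)) := by
      rw [hδdef]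
      ring
    rw [h2, neg_eq_zero] at h1
    exact mul_ne_zero (mul_ne_zero hδ0 hδ0) (mul_ne_zero hx (pow_ne_zero _ hx)) h1
  · intro x
    show z 0 * x = x
    rw [hz0, one_mul]
  · intro j k x
    show z (j + k) * x = z j * (z k * x)
    rw [hzadd, mul_assoc]
  · intro j x y
    apply am_inj (K := K)
    rw [wf_eq hK hδ, wf_eq hK hδ]
    show δ * (z j * x * (z j * y) ^ l - (z j * x) ^ l * (z j * y)) = _
    rw [mul_pow, mul_pow]
    have h1 := hzl j
    linear_combination δ * (x * y ^ l - x ^ l * y) * h1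
  · intro j hj x hx
    have h1 : (z j - 1) * x = 0 := by
      have h2 : z j * x = x := hx
      rw [sub_mul, one_mul, h2, sub_self]
    exact (mul_eq_zero.1 h1).resolve_left (sub_ne_zero.2 (hz1 j hj))
  · intro j k hj hk y hy
    have hkey := fun x => key hK hδ (hzl j) (hzl k) x (y x) (hy x)
    have hv1 : z k - 1 ≠ 0 := sub_ne_zero.2 (hz1 k hk)
    have hv2 : z k ^ l - 1 ≠ 0 := by
      intro h1
      have h2 := hzl k
      rw [sub_eq_zero.1 h1, mul_one] at h2
      exact hz1 k hk h2
    constructor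
    · intro hjk x
      have h1 := hkey x
      have h2 : z j * z k = 1 := by rw [← hzadd, hjk, hz0]
      rw [h2, sub_self, mul_zero, neg_zero, zero_mul] at h1
      apply am_inj (K := K)
      rw [map_zero]
      exact (mul_eq_zero.1 h1).resolve_left (mul_ne_zero hv1 hv2)
    · intro hjk w
      have hu1 : z j - 1 ≠ 0 := sub_ne_zero.2 (hz1 j hj)
      have huv : z j * z k - 1 ≠ 0 := by
        rw [← hzadd]
        exact sub_ne_zero.2 (hz1 _ hjk)
      have hzz : ∀ j, z j ^ l ≠ 0 := by
        intro j h1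
        have h2 := hzl j
        rw [h1, mul_zero] at h2
        exact zero_ne_one h2
      refine count hK (fun x => wf l δ (z j * x) x + wf l δ (z k * y x) (y x))
        (-(2 * δ * (z j - 1) * (z k - 1) * z j ^ l * z k ^ l * (z j * z k - 1)) /
          ((z k - 1) * (z k ^ l - 1))) ?_ ?_ w
      · refine div_ne_zero (neg_ne_zero.2 ?_) (mul_ne_zero hv1 hv2)
        exact mul_ne_zero (mul_ne_zero (mul_ne_zero (mul_ne_zero (mul_ne_zero
          (mul_ne_zero h20 hδ0) hu1) hv1) (hzz j)) (hzz k)) huv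
      · intro x
        have h1 := hkey x
        rw [div_mul_eq_mul_div, eq_div_iff (mul_ne_zero hv1 hv2), ← h1]
        ring

end Pool.Agent.Helper2.EP.FLD
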